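import Mathlib.Algebra.FreeMonoid.Basic
import Mathlib.GroupTheory.Congruence.Hom

/-!
One-relator special inverse monoids and their minimal invertible pieces.
A letter of the doubled alphabet is a pair `(a, true)` (standing for `a`) or `(a, false)`
(standing for the formal inverse of `a`).
-/

namespace Pool.Agent.Work.MP_d4551b_al

/-- Words over the doubled alphabet `A ∪ A⁻¹`. -/
abbrev Word (A : Type) : Type := FreeMonoid (A × Bool)

/-- The formal inverse of a word: reverse it and invert every letter. -/
def formalInv {A : Type} (u : Word A) : Word A :=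
  FreeMonoid.reverse (FreeMonoid.map (fun a : A × Bool => (a.1, !a.2)) u)

/-- The generating pairs of the Wagner congruence:
`u u⁻¹ u = u` and `u u⁻¹ v v⁻¹ = v v⁻¹ u u⁻¹`. -/
def WagnerRel (A : Type) (x y : Word A) : Prop :=
  (∃ u : Word A, x = u * formalInv u * u ∧ y = u) ∨
  (∃ u v : Word A, x = u * formalInv u * (v * formalInv v) ∧
    y = v * formalInv v * (u * formalInv u))

/-- The free inverse monoid on `A`: words modulo the Wagner congruence. -/
abbrev FIM (A : Type) : Type := (conGen (WagnerRel A)).Quotient

/-- The element of the free inverse monoid represented by a word. -/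
def toFIM (A : Type) : Word A →* FIM A := (conGen (WagnerRel A)).mk'

/-- The congruence on the free inverse monoid generated by the pair `(w, 1)`. -/
def relCon {A : Type} (w : Word A) : Con (FIM A) :=
  conGen (fun x y : FIM A => x = toFIM A w ∧ y = 1)

/-- The special one-relator inverse monoid `Inv⟨A | w = 1⟩`. -/
abbrev InvMon {A : Type} (w : Word A) : Type := (relCon w).Quotient

/-- The element of `Inv⟨A | w = 1⟩` represented by a word. -/
def cls {A : Type} (w : Word A) : Word A →* InvMon w := (relCon w).mk'.comp (toFIM A)

/-- The set of minimal invertible pieces of `w` in `Inv⟨A | w = 1⟩`: the nonempty factors `u` of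
`w = s u t` lying between two consecutive cut points, a cut point being the end of an initial
segment of `w` (the empty one included) that represents a unit. -/
def pieces {A : Type} (w : Word A) : Set (Word A) :=
  {u | u ≠ 1 ∧ ∃ s t : Word A, w = s * u * t ∧ IsUnit (cls w s) ∧ IsUnit (cls w (s * u)) ∧
    ∀ u₁ u₂ : Word A, u = u₁ * u₂ → u₁ ≠ 1 → u₂ ≠ 1 → ¬ IsUnit (cls w (s * u₁))}

end Pool.Agent.Work.MP_d4551b_al
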