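import Mathlib.Data.ZMod.Basic
import Mathlib.Tactic
import Pool.Agent.Work.MP_d4551b_al.Defs

/-! Models of special inverse monoids by relations generated by injective maps. -/

namespace Pool.Agent.Work.MP_d4551b_al

/-- Binary relations on `X`, a monoid under composition. -/
@[ext] structure RelM (X : Type) where
  r : X → X → Prop

instance (X : Type) : Monoid (RelM X) where
  mul a b := ⟨fun s t => ∃ m, a.r s m ∧ b.r m t⟩
  one := ⟨fun s t => s = t⟩
  mul_assoc a b c := by
    ext s t
    constructor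
    · rintro ⟨m, ⟨n, h1, h2⟩, h3⟩
      exact ⟨n, h1, m, h2, h3⟩
    · rintro ⟨n, h1, m, h2, h3⟩
      exact ⟨m, ⟨n, h1, h2⟩, h3⟩
  one_mul a := by
    ext s t
    constructor
    · rintro ⟨m, h1, h2⟩
      have h1' : s = m := h1
      exact h1' ▸ h2
    · intro h
      exact ⟨s, rfl, h⟩
  mul_one a := by
    ext s t
    constructor
    · rintro ⟨m, h1, h2⟩
      have h2' : m = t := h2
      exact h2' ▸ h1
    · intro h
      exact ⟨t, h, rfl⟩

theorem RelM.mul_r {X : Type} (a b : RelM X) (s t : X) :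
    (a * b).r s t ↔ ∃ m, a.r s m ∧ b.r m t := Iff.rfl

theorem RelM.one_r {X : Type} (s t : X) : (1 : RelM X).r s t ↔ s = t := Iff.rfl

variable {A X : Type}

/-- The relation attached to a letter. -/
def letterRel (f : A → X → X) : A × Bool → RelM X
  | (a, true) => ⟨fun s t => f a s = t⟩
  | (a, false) => ⟨fun s t => f a t = s⟩

/-- The relation attached to a word. -/
def wordRel (f : A → X → X) : Word A →* RelM X := FreeMonoid.lift (letterRel f)

theorem formalInv_one : formalInv (1 : Word A) = 1 := rfl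

theorem formalInv_mul (u v : Word A) : formalInv (u * v) = formalInv v * formalInv u := by
  unfold formalInv
  rw [map_mul, FreeMonoid.reverse_mul]

theorem formalInv_of (a : A) (b : Bool) :
    formalInv (FreeMonoid.of (a, b) : Word A) = FreeMonoid.of (a, !b) := rfl

theorem wordRel_of (f : A → X → X) (a : A × Bool) :
    wordRel f (FreeMonoid.of a) = letterRel f a := by
  simp [wordRel]

theorem wordRel_inv (f : A → X → X) (u : Word A) :
    ∀ s t, (wordRel f (formalInv u)).r s t ↔ (wordRel f u).r t s := by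
  induction u using FreeMonoid.inductionOn' with
  | one =>
    intro s t
    rw [formalInv_one, map_one, RelM.one_r, RelM.one_r, eq_comm]
  | of_mul a u ih =>
    intro s t
    obtain ⟨a, b⟩ := a
    rw [formalInv_mul, map_mul, map_mul, formalInv_of, wordRel_of, wordRel_of, RelM.mul_r,
      RelM.mul_r]
    cases b
    · constructor
      · rintro ⟨m, h1, h2⟩
        exact ⟨m, h2, (ih _ _).1 h1⟩
      · rintro ⟨m, h1, h2⟩
        exact ⟨m, (ih _ _).2 h2, h1⟩
    · constructor
      · rintro ⟨m, h1, h2⟩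
        exact ⟨m, h2, (ih _ _).1 h1⟩
      · rintro ⟨m, h1, h2⟩
        exact ⟨m, (ih _ _).2 h2, h1⟩

theorem wordRel_biunique (f : A → X → X) (hf : ∀ a, Function.Injective (f a)) (u : Word A) :
    (∀ s t t', (wordRel f u).r s t → (wordRel f u).r s t' → t = t') ∧
    (∀ s s' t, (wordRel f u).r s t → (wordRel f u).r s' t → s = s') := by
  induction u using FreeMonoid.inductionOn' with
  | one =>
    rw [map_one]
    refine ⟨fun s t t' h h' => ?_, fun s s' t h h' => ?_⟩
    · rw [RelM.one_r] at h h'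
      exact h.symm.trans h'
    · rw [RelM.one_r] at h h'
      exact h.trans h'.symm
  | of_mul a u ih =>
    obtain ⟨a, b⟩ := a
    rw [map_mul, wordRel_of]
    have hl : (∀ s t t', (letterRel f (a, b)).r s t → (letterRel f (a, b)).r s t' → t = t') ∧
        (∀ s s' t, (letterRel f (a, b)).r s t → (letterRel f (a, b)).r s' t → s = s') := by
      cases b
      · exact ⟨fun s t t' h h' => hf a (Eq.trans h (Eq.symm h')),
          fun s s' t h h' => Eq.trans (Eq.symm h) h'⟩
      · exact ⟨fun s t t' h h' => Eq.trans (Eq.symm h) h',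
          fun s s' t h h' => hf a (Eq.trans h (Eq.symm h'))⟩
    refine ⟨fun s t t' h h' => ?_, fun s s' t h h' => ?_⟩
    · obtain ⟨m, h1, h2⟩ := h
      obtain ⟨m', h1', h2'⟩ := h'
      obtain rfl := hl.1 _ _ _ h1 h1'
      exact ih.1 _ _ _ h2 h2'
    · obtain ⟨m, h1, h2⟩ := h
      obtain ⟨m', h1', h2'⟩ := h'
      obtain rfl := ih.2 _ _ _ h2 h2'
      exact hl.2 _ _ _ h1 h1'

theorem wordRel_mul_inv (f : A → X → X) (hf : ∀ a, Function.Injective (f a)) (u : Word A)
    (s t : X) :
    (wordRel f (u * formalInv u)).r s t ↔ s = t ∧ ∃ m, (wordRel f u).r s m := by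
  rw [map_mul, RelM.mul_r]
  constructor
  · rintro ⟨m, h1, h2⟩
    rw [wordRel_inv] at h2
    exact ⟨(wordRel_biunique f hf u).2 _ _ _ h1 h2, m, h1⟩
  · rintro ⟨rfl, m, h⟩
    exact ⟨m, h, (wordRel_inv f u _ _).2 h⟩

theorem wagner_le_ker (f : A → X → X) (hf : ∀ a, Function.Injective (f a)) :
    conGen (WagnerRel A) ≤ Con.ker (wordRel f) := by
  rw [Con.conGen_le]
  intro x y h
  change wordRel f x = wordRel f y
  rcases h with ⟨u, rfl, rfl⟩ | ⟨u, v, rfl, rfl⟩
  · ext s t
    rw [map_mul, RelM.mul_r]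
    constructor
    · rintro ⟨m, h1, h2⟩
      rw [wordRel_mul_inv f hf] at h1
      exact h1.1 ▸ h2
    · intro h
      exact ⟨s, (wordRel_mul_inv f hf _ _ _).2 ⟨rfl, t, h⟩, h⟩
  · ext s t
    rw [map_mul (wordRel f) (u * formalInv u), map_mul (wordRel f) (v * formalInv v),
      RelM.mul_r, RelM.mul_r]
    simp only [wordRel_mul_inv f hf]
    constructor
    · rintro ⟨m, ⟨rfl, h1⟩, rfl, h2⟩
      exact ⟨s, ⟨rfl, h2⟩, rfl, h1⟩
    · rintro ⟨m, ⟨rfl, h1⟩, rfl, h2⟩
      exact ⟨s, ⟨rfl, h2⟩, rfl, h1⟩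

/-- If the relator acts as the identity in a model, a word representing a unit acts surjectively. -/
theorem surj_of_isUnit (f : A → X → X) (hf : ∀ a, Function.Injective (f a)) (w : Word A)
    (hw : wordRel f w = 1) (u : Word A) (hu : IsUnit (cls w u)) (t : X) :
    ∃ s, (wordRel f u).r s t := by
  let φ : FIM A →* RelM X := Con.lift _ (wordRel f) (wagner_le_ker f hf)
  have hφ : ∀ v, φ (toFIM A v) = wordRel f v := fun v => Con.lift_mk' _ v
  have hle : relCon w ≤ Con.ker φ := by
    unfold relCon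
    rw [Con.conGen_le]
    rintro x y ⟨rfl, rfl⟩
    change φ _ = φ 1
    rw [hφ, hw, map_one]
  let ψ : InvMon w →* RelM X := Con.lift _ φ hle
  have hψ : ψ (cls w u) = wordRel f u := by
    rw [← hφ]
    exact Con.lift_mk' hle _
  have h1 : IsUnit (wordRel f u) := hψ ▸ hu.map ψ
  obtain ⟨v, hv⟩ := h1.exists_left_inv
  have : (v * wordRel f u).r t t := by rw [hv]; rfl
  obtain ⟨m, _, h⟩ := this
  exact ⟨m, h⟩

theorem cls_self (w : Word A) : cls w w = 1 := by
  change (relCon w).mk' (toFIM A w) = 1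
  rw [← map_one (relCon w).mk']
  apply Con.eq (relCon w) |>.2
  exact ConGen.Rel.of _ _ ⟨rfl, rfl⟩

theorem cls_wagner (w u : Word A) : cls w u * cls w (formalInv u) * cls w u = cls w u := by
  rw [← map_mul, ← map_mul]
  change (relCon w).mk' (toFIM A _) = (relCon w).mk' (toFIM A _)
  congr 1
  apply Con.eq (conGen (WagnerRel A)) |>.2
  exact ConGen.Rel.of _ _ (Or.inl ⟨u, rfl, rfl⟩)

end Pool.Agent.Work.MP_d4551b_al
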