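import Pool.Agent.Work.MP_d4551b_al.Model

/-! The counterexample `r = p p⁻¹ x` with `p = y x y x y⁻¹ y⁻¹`. -/

namespace Pool.Agent.Work.MP_d4551b_al

open FreeMonoid

/-- the letter `x` -/
abbrev lx : Word (Fin 2) := of (0, true)
/-- the letter `x⁻¹` -/
abbrev lX : Word (Fin 2) := of (0, false)
/-- the letter `y` -/
abbrev ly : Word (Fin 2) := of (1, true)
/-- the letter `y⁻¹` -/
abbrev lY : Word (Fin 2) := of (1, false)

/-- `p = y x y x y⁻¹ y⁻¹` -/
def pw : Word (Fin 2) := ly * lx * ly * lx * lY * lY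

/-- `r = p p⁻¹ x` -/
def rw0 : Word (Fin 2) := pw * formalInv pw * lx

theorem cls_pw : cls rw0 pw = 1 := by
  have h1 : cls rw0 pw * cls rw0 (formalInv pw) * cls rw0 lx = 1 := by
    rw [← map_mul, ← map_mul]
    exact cls_self rw0
  have h2 := cls_wagner rw0 pw
  have he : cls rw0 pw * cls rw0 (formalInv pw) = 1 := by
    calc cls rw0 pw * cls rw0 (formalInv pw)
        = cls rw0 pw * cls rw0 (formalInv pw) *
            (cls rw0 pw * cls rw0 (formalInv pw) * cls rw0 lx) := by rw [h1, mul_one]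
      _ = (cls rw0 pw * cls rw0 (formalInv pw) * cls rw0 pw) * cls rw0 (formalInv pw) *
            cls rw0 lx := by simp only [mul_assoc]
      _ = 1 := by rw [h2, h1]
  have hx : cls rw0 lx = 1 := by rw [he, one_mul] at h1; exact h1
  have hp : cls rw0 pw = cls rw0 ly * (cls rw0 ly * cls rw0 lY) * cls rw0 lY := by
    unfold pw
    simp only [map_mul, hx, one_mul, mul_assoc]
  have hy : cls rw0 ly * cls rw0 lY = 1 := by
    have h3 : cls rw0 ly * cls rw0 lY * cls rw0 ly = cls rw0 ly := cls_wagner rw0 ly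
    obtain ⟨c, hc⟩ : ∃ c, cls rw0 ly * c = 1 :=
      ⟨cls rw0 ly * cls rw0 lY * cls rw0 lY * cls rw0 (formalInv pw), by
        rw [← he, hp]; simp only [mul_assoc]⟩
    calc cls rw0 ly * cls rw0 lY = cls rw0 ly * cls rw0 lY * (cls rw0 ly * c) := by
          rw [hc, mul_one]
      _ = (cls rw0 ly * cls rw0 lY * cls rw0 ly) * c := by simp only [mul_assoc]
      _ = 1 := by rw [h3, hc]
  rw [hp, hy, mul_one, hy]

/-- the bicyclic model of `M₁`: `x` acts trivially and `y` as the successor map. -/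
def f1 : Fin 2 → ℕ → ℕ := ![id, Nat.succ]

theorem f1_inj : ∀ a, Function.Injective (f1 a) := by
  intro a
  fin_cases a
  · exact Function.injective_id
  · exact Nat.succ_injective

theorem f1_x (s t : ℕ) : (wordRel f1 lx).r s t ↔ s = t := by
  rw [wordRel_of]; rfl
theorem f1_y (s t : ℕ) : (wordRel f1 ly).r s t ↔ s + 1 = t := by
  rw [wordRel_of]; rfl
theorem f1_Y (s t : ℕ) : (wordRel f1 lY).r s t ↔ t + 1 = s := by
  rw [wordRel_of]; rfl

theorem f1_r : wordRel f1 rw0 = 1 := by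
  ext s t
  unfold rw0
  rw [map_mul, RelM.mul_r, RelM.one_r]
  simp only [wordRel_mul_inv f1 f1_inj, f1_x]
  constructor
  · rintro ⟨m, ⟨h, -⟩, h'⟩
    exact h.trans h'
  · rintro rfl
    refine ⟨s, ⟨rfl, s, ?_⟩, rfl⟩
    unfold pw
    simp only [map_mul, RelM.mul_r, f1_x, f1_y, f1_Y]
    exact ⟨s + 1, ⟨s + 2, ⟨s + 2, ⟨s + 1, ⟨s + 1, rfl, rfl⟩, rfl⟩, rfl⟩, rfl⟩, rfl⟩

theorem split_pw (u₁ u₂ : Word (Fin 2)) (h : pw = u₁ * u₂) (h₁ : u₁ ≠ 1) (h₂ : u₂ ≠ 1) :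
    u₁ = ly ∨ u₁ = ly * lx ∨ u₁ = ly * lx * ly ∨ u₁ = ly * lx * ly * lx ∨
      u₁ = ly * lx * ly * lx * lY := by
  have hl : [((1 : Fin 2), true), (0, true), (1, true), (0, true), (1, false), (1, false)] =
      u₁.toList ++ u₂.toList := congrArg FreeMonoid.toList h
  have h₁' : u₁.toList ≠ [] := h₁
  have h₂' : u₂.toList ≠ [] := h₂
  have key : u₁.toList = [(1, true)] ∨ u₁.toList = [(1, true), (0, true)] ∨
      u₁.toList = [(1, true), (0, true), (1, true)] ∨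
      u₁.toList = [(1, true), (0, true), (1, true), (0, true)] ∨
      u₁.toList = [(1, true), (0, true), (1, true), (0, true), (1, false)] := by
    generalize u₁.toList = a at *
    generalize u₂.toList = b at *
    rcases List.append_eq_cons_iff.1 hl.symm with ⟨h0, -⟩ | ⟨a1, rfl, hl1⟩
    · exact absurd h0 h₁'
    rcases List.append_eq_cons_iff.1 hl1.symm with ⟨rfl, -⟩ | ⟨a2, rfl, hl2⟩
    · simp
    rcases List.append_eq_cons_iff.1 hl2.symm with ⟨rfl, -⟩ | ⟨a3, rfl, hl3⟩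
    · simp
    rcases List.append_eq_cons_iff.1 hl3.symm with ⟨rfl, -⟩ | ⟨a4, rfl, hl4⟩
    · simp
    rcases List.append_eq_cons_iff.1 hl4.symm with ⟨rfl, -⟩ | ⟨a5, rfl, hl5⟩
    · simp
    rcases List.append_eq_cons_iff.1 hl5.symm with ⟨rfl, -⟩ | ⟨a6, rfl, hl6⟩
    · simp
    exact absurd (List.append_eq_nil_iff.1 hl6.symm).2 h₂'
  rcases key with h | h | h | h | h
  · exact Or.inl h
  · exact Or.inr (Or.inl h)
  · exact Or.inr (Or.inr (Or.inl h))
  · exact Or.inr (Or.inr (Or.inr (Or.inl h)))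
  · exact Or.inr (Or.inr (Or.inr (Or.inr h)))

theorem pw_mem : pw ∈ pieces rw0 := by
  refine ⟨fun h => absurd (congrArg FreeMonoid.length h) (by decide), 1, formalInv pw * lx,
    ?_, ?_, ?_, ?_⟩
  · rw [one_mul, ← mul_assoc]; rfl
  · rw [map_one]; exact isUnit_one
  · rw [one_mul, cls_pw]; exact isUnit_one
  · intro u₁ u₂ h h₁ h₂ hu
    rw [one_mul] at hu
    obtain ⟨s, hs⟩ := surj_of_isUnit f1 f1_inj rw0 f1_r u₁ hu 0
    rcases split_pw u₁ u₂ h h₁ h₂ with rfl | rfl | rfl | rfl | rfl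
    all_goals
      simp only [map_mul, RelM.mul_r, f1_x, f1_y, f1_Y] at hs
      omega

/-- the underlying set of the model of `M_k` -/
abbrev Om (k : ℕ) : Type := ℕ ⊕ (ℕ × ℤ × ZMod k)

/-- the action of `x` -/
def gx (k : ℕ) : Om k → Om k
  | Sum.inl m => Sum.inl m
  | Sum.inr (j, n, c) => Sum.inr (j, n, c + 1)

/-- the action of `y` -/
def gy (k : ℕ) : Om k → Om k
  | Sum.inl m => Sum.inr (0, (m : ℤ), 0)
  | Sum.inr (0, n, c) => Sum.inr (1, n + (if c = 1 then 1 else 0), -c)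
  | Sum.inr (j + 1, n, c) => Sum.inr (j + 2, n, c)

/-- the model of `M_k` -/
def fk (k : ℕ) : Fin 2 → Om k → Om k := ![gx k, gy k]

theorem gx_inj (k : ℕ) : Function.Injective (gx k) := by
  rintro (m | ⟨j, n, c⟩) (m' | ⟨j', n', c'⟩) h <;> simp_all [gx]

theorem gy_inj (k : ℕ) : Function.Injective (gy k) := by
  rintro (m | ⟨_ | j, n, c⟩) (m' | ⟨_ | j', n', c'⟩) h <;> simp_all [gy]
  obtain ⟨h1, rfl⟩ := h
  simpa using h1

theorem fk_inj (k : ℕ) : ∀ a, Function.Injective (fk k a) := by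
  intro a
  fin_cases a
  · exact gx_inj k
  · exact gy_inj k

theorem fk_x (k : ℕ) (s t : Om k) : (wordRel (fk k) lx).r s t ↔ gx k s = t := by
  rw [wordRel_of]; rfl
theorem fk_y (k : ℕ) (s t : Om k) : (wordRel (fk k) ly).r s t ↔ gy k s = t := by
  rw [wordRel_of]; rfl
theorem fk_Y (k : ℕ) (s t : Om k) : (wordRel (fk k) lY).r s t ↔ gy k t = s := by
  rw [wordRel_of]; rfl

theorem fk_pw (k : ℕ) (s t : Om k) :
    (wordRel (fk k) pw).r s t ↔ gy k (gy k t) = gx k (gy k (gx k (gy k s))) := by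
  unfold pw
  simp only [map_mul, RelM.mul_r, fk_x, fk_y, fk_Y]
  constructor
  · rintro ⟨_, ⟨_, ⟨_, ⟨_, ⟨_, rfl, rfl⟩, rfl⟩, rfl⟩, h⟩, rfl⟩
    exact h
  · intro h
    exact ⟨_, ⟨_, ⟨_, ⟨_, ⟨_, rfl, rfl⟩, rfl⟩, rfl⟩, h⟩, rfl⟩

theorem fk_pw_total (k : ℕ) (hk : 2 ≤ k) (s : Om k) : ∃ t, (wordRel (fk k) pw).r s t := by
  have : Fact (1 < k) := ⟨hk⟩
  simp only [fk_pw]
  rcases s with m | ⟨_ | j, n, c⟩
  · exact ⟨Sum.inl (m + 1), by simp [gx, gy]⟩
  · refine ⟨Sum.inr (0, n + (if c = 1 then 1 else 0) - (if c - 2 = 1 then 1 else 0), c - 2), ?_⟩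
    simp only [gx, gy, Sum.inr.injEq, Prod.mk.injEq, true_and]
    constructor <;> ring
  · exact ⟨Sum.inr (j + 1, n, c + 1 + 1), by simp [gx, gy]⟩

theorem fk_r (k : ℕ) (hk : 2 ≤ k) : wordRel (fk k) rw0 = wordRel (fk k) lx := by
  ext s t
  unfold rw0
  rw [map_mul, RelM.mul_r]
  simp only [wordRel_mul_inv (fk k) (fk_inj k)]
  constructor
  · rintro ⟨m, ⟨rfl, -⟩, h'⟩
    exact h'
  · intro h
    exact ⟨s, ⟨rfl, fk_pw_total k hk s⟩, h⟩

theorem fk_x_pow (k i : ℕ) (s t : Om k) :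
    (wordRel (fk k) lx ^ i).r s t ↔ (gx k)^[i] s = t := by
  induction i generalizing s with
  | zero => rw [pow_zero]; rfl
  | succ i ih =>
    rw [pow_succ', RelM.mul_r]
    simp only [fk_x, ih, Function.iterate_succ_apply]
    constructor
    · rintro ⟨_, rfl, h⟩
      exact h
    · intro h
      exact ⟨_, rfl, h⟩

theorem gx_iter (k i : ℕ) (s : Om k) :
    (gx k)^[i] s = Sum.map id (fun z => (z.1, z.2.1, z.2.2 + (i : ZMod k))) s := by
  induction i with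
  | zero => rcases s with m | ⟨j, n, c⟩ <;> simp
  | succ i ih =>
    rw [Function.iterate_succ_apply', ih]
    rcases s with m | ⟨j, n, c⟩ <;> simp [gx, add_assoc]

theorem fk_rk (k : ℕ) (hk : 2 ≤ k) : wordRel (fk k) (rw0 ^ k) = 1 := by
  rw [map_pow, fk_r k hk]
  ext s t
  rw [fk_x_pow, RelM.one_r, gx_iter]
  rcases s with m | ⟨j, n, c⟩ <;> simp

theorem pw_not_unit (k : ℕ) (hk : 2 ≤ k) : ¬ IsUnit (cls (rw0 ^ k) pw) := by
  have : Fact (1 < k) := ⟨hk⟩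
  intro hu
  obtain ⟨s, hs⟩ := surj_of_isUnit (fk k) (fk_inj k) _ (fk_rk k hk) pw hu (Sum.inl 0)
  rw [fk_pw] at hs
  rcases s with m | ⟨_ | j, n, c⟩
  · simp [gx, gy] at hs
    omega
  · simp [gx, gy] at hs
  · simp [gx, gy] at hs

theorem pw_not_mem (k : ℕ) (hk : 2 ≤ k) : pw ∉ pieces (rw0 ^ k) := by
  rintro ⟨-, s, t, -, hs, hsu, -⟩
  rw [map_mul] at hsu
  obtain ⟨v, hv⟩ := hs
  rw [← hv] at hsu
  exact pw_not_unit k hk ((Units.isUnit_units_mul v _).1 hsu)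

theorem main : ∃ r : Word (Fin 2), r ≠ 1 ∧ ∀ k : ℕ, 2 ≤ k → pieces (r ^ k) ≠ pieces r :=
  ⟨rw0, fun h => absurd (congrArg FreeMonoid.length h) (by decide), fun k hk h => pw_not_mem k hk (h ▸ pw_mem)⟩

end Pool.Agent.Work.MP_d4551b_al
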